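import Pool.Agent.Results.MP_5d7b92_nt.CommonSummands

/-!
# Primes with index a multiple of `n` and prime shifts: almost all shifts

The problem asks, for every `n > 6`, for some `k ≤ n` such that `p_{kn} + 2` is prime. Here `n` is
fixed and `2` is replaced by other even shifts: for most vectors `(c_1, ..., c_r)` without a local
obstruction the numbers `p_{kn} + 2 c_1, ..., p_{kn} + 2 c_r` are simultaneously prime for the
expected number of `k`, up to a constant factor; moreover, for any finite colouring of the `k`, already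
for those `k` for which at least `m` primes `p_{k'n}` within `ε log p_{kn}` of `p_{kn}` have `k'` of
the colour of `k`.

The coloured theorem of the Maynard-Tao type of the starting library (`Pool.Agent.TH882`) and the
theorem `sys_pm` of `Pool.Agent.V1137` are used, and the lemma `meets` on index sets of
`Pool.Agent.Results.MP_5d7b92_nt.CommonSummands`.
-/

set_option autoImplicit false

open Finset Filter Topology

namespace Pool.Agent.Results.MP_be93de_nt.MostShifts

/-- The `m`-th prime: `p 1 = 2`, `p 2 = 3`, `p 3 = 5`, and so on. -/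
noncomputable def p (m : ℕ) : ℕ := Nat.nth Nat.Prime (m - 1)

/-- For every prime `l` there is an integer `y` such that `l` divides none of the numbers
`y, y + 2 c_1, ..., y + 2 c_r`. -/
def NoObstruction {r : ℕ} (c : Fin r → ℕ) : Prop :=
  ∀ l : ℕ, l.Prime → ∃ y : ℤ, ¬ (l : ℤ) ∣ y ∧ ∀ j, ¬ (l : ℤ) ∣ y + 2 * c j

/-- At least `m` other primes `p_{k'n}` within `ε log p_{kn}` of `p_{kn}` have `k'` of the colour of
`k`. -/
def Clustered {s : ℕ} (n : ℕ) (χ : ℕ → Fin s) (m : ℕ) (ε : ℝ) (k : ℕ) : Prop :=
  ∃ S : Finset ℕ, S.card = m ∧ ∀ k' ∈ S, 1 ≤ k' ∧ k' ≠ k ∧ χ k' = χ k ∧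
    |(p (k' * n) : ℝ) - p (k * n)| ≤ ε * Real.log (p (k * n))

/-- The `k ≥ 1` with `p_{kn} ≤ x` and the cluster property for which all `p_{kn} + 2 c_j` are
prime. -/
def good {r s : ℕ} (n : ℕ) (χ : ℕ → Fin s) (m : ℕ) (ε : ℝ) (c : Fin r → ℕ) (x : ℕ) : Set ℕ :=
  {k : ℕ | 1 ≤ k ∧ p (k * n) ≤ x ∧ Clustered n χ m ε k ∧ ∀ j, (p (k * n) + 2 * c j).Prime}

open Classical in
/-- The vectors with `1 ≤ c_j ≤ L x` without obstruction and with fewer than
`δ x / (log x) ^ (r + 1)` such `k`. -/
noncomputable def exceptions {s : ℕ} (r n : ℕ) (χ : ℕ → Fin s) (m : ℕ) (ε δ : ℝ) (L x : ℕ) :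
    Finset (Fin r → ℕ) :=
  (Fintype.piFinset (fun _ : Fin r => Icc 1 (L * x))).filter (fun c => NoObstruction c ∧
    ((good n χ m ε c x).ncard : ℝ) < δ * (x / Real.log x ^ (r + 1)))

open Pool.Agent.Results.MP_5d7b92_nt.CommonSummands in
lemma clusters {s : ℕ} (n : ℕ) (hn : 1 ≤ n) (χ : ℕ → Fin s) (m : ℕ) (ε : ℝ) (hε : 0 < ε) :
    MeetsClusters {i : ℕ | ∃ k : ℕ, 1 ≤ k ∧ i = k * n ∧ Clustered n χ m ε k} := by
  classical
  refine ⟨n * (s * m + 1), ε, hε, 1, fun a ha hc => ?_⟩
  -- the multiples of `n` in the block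
  set b : ℕ := a / n + 1 with hb
  have hbn : a < b * n := by
    rw [hb]
    have := Nat.lt_div_mul_add (a := a) (b := n) (by omega)
    rw [add_mul, one_mul]
    exact this
  have hbn2 : b * n ≤ a + n := by
    rw [hb, add_mul, one_mul]
    have := Nat.div_mul_le_self a n
    omega
  have hb1 : 1 ≤ b := Nat.le_add_left 1 _
  obtain ⟨col, -, hcard⟩ := exists_lt_card_fiber_of_mul_lt_card_of_maps_to
    (s := Icc b (b + s * m)) (t := (univ : Finset (Fin s))) (f := χ) (n := m)
    (fun _ _ => mem_univ _) (by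
      rw [card_univ, Fintype.card_fin, Nat.card_Icc]
      omega)
  set F := (Icc b (b + s * m)).filter (fun k => χ k = col) with hF
  have hne : F.Nonempty := by
    rw [← card_pos]
    omega
  have hrange : ∀ k ∈ F, a ≤ k * n ∧ k * n ≤ a + n * (s * m + 1) ∧ 1 ≤ k ∧ χ k = col := by
    intro k hk
    rw [hF, mem_filter, mem_Icc] at hk
    obtain ⟨⟨h1, h2⟩, h3⟩ := hk
    refine ⟨?_, ?_, hb1.trans h1, h3⟩
    · exact hbn.le.trans (Nat.mul_le_mul_right _ h1)
    · calc k * n ≤ (b + s * m) * n := Nat.mul_le_mul_right _ h2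
        _ = b * n + s * m * n := by ring
        _ ≤ a + n + s * m * n := by omega
        _ = a + n * (s * m + 1) := by ring
  obtain ⟨k, hk⟩ := hne
  obtain ⟨hk1, hk2, hk3, hk4⟩ := hrange k hk
  refine ⟨k * n - a, by omega, k, hk3, by omega, ?_⟩
  have hm : m ≤ (F.erase k).card := by
    rw [card_erase_of_mem hk]
    omega
  obtain ⟨S, hS, hSc⟩ := exists_subset_card_eq hm
  refine ⟨S, hSc, fun k' hk' => ?_⟩
  obtain ⟨h1, h2⟩ := mem_erase.1 (hS hk')
  obtain ⟨h3, h4, h5, h6⟩ := hrange k' h2
  refine ⟨h5, h1, by rw [h6, hk4], ?_⟩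
  have hmono : ∀ {u v : ℕ}, u ≤ v → (p u : ℝ) ≤ p v := by
    intro u v huv
    exact_mod_cast P_mono huv
  have hc' : (p (a + n * (s * m + 1)) : ℝ) ≤ p a + ε * Real.log (p a) := hc
  have e1 := hmono hk1
  have e2 := hmono hk2
  have e3 := hmono h3
  have e4 := hmono h4
  have h0 : (0 : ℝ) < p a := by exact_mod_cast (P_prime a).pos
  have hlog := mul_le_mul_of_nonneg_left (Real.log_le_log h0 e1) hε.le
  rw [abs_le]
  constructor <;> linarith

open Pool.Agent.V1137.Unav in
theorem fixed {s : ℕ} (n : ℕ) (hn : 1 ≤ n) (χ : ℕ → Fin s) (m : ℕ) (ε : ℝ) (hε : 0 < ε)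
    (r L : ℕ) (κ : ℝ) (hκ : 0 < κ) : ∃ δ : ℝ, 0 < δ ∧ ∀ᶠ x : ℕ in atTop,
      ((exceptions r n χ m ε δ L x).card : ℝ) ≤ κ * (x : ℝ) ^ r := by
  classical
  obtain ⟨M, η, hη, hM⟩ := Pool.Agent.Results.MP_5d7b92_nt.CommonSummands.meets _
    (clusters n hn χ m ε hε)
  obtain ⟨δ, hδ, x₀, h⟩ := sys_pm (fun _ : Fin r => 1) (fun _ => Or.inl rfl)
    (fun _ => Polynomial.X) (fun _ => by simp) (fun _ => by simp)
    {q : ℕ | Nat.primeCounting q ∈ {i : ℕ | ∃ k : ℕ, 1 ≤ k ∧ i = k * n ∧ Clustered n χ m ε k}}
    (PS_most M η hη _ hM) (2 * L) κ hκ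
  refine ⟨δ, hδ, ?_⟩
  rw [eventually_atTop]
  refine ⟨x₀, fun x hx => le_trans ?_ ((h x hx).trans (le_of_eq ?_))⟩
  · apply Nat.cast_le.2
    apply card_le_card_of_injOn (fun c : Fin r → ℕ => fun j => 2 * c j)
    · intro c hc
      rw [mem_coe] at hc
      unfold exceptions at hc
      rw [mem_filter, Fintype.mem_piFinset] at hc
      apply mem_coe.2
      rw [mem_filter, Fintype.mem_piFinset]
      have hev : ∀ (y : ℤ) (j : Fin r), ((2 * c j : ℕ) : ℤ) +
          1 * (Polynomial.X : Polynomial ℤ).eval y = y + 2 * c j := by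
        intro y j
        rw [Polynomial.eval_X]
        push_cast
        ring
      refine ⟨fun j => ?_, ?_, ?_⟩
      · rw [Polynomial.natDegree_X, pow_one]
        have h2 := mem_Icc.1 (hc.1 j)
        have e1 : 2 * L * x = 2 * (L * x) := by ring
        have hgoal : 2 * c j ∈ Icc 1 (2 * L * x) := by
          rw [mem_Icc]
          omega
        exact hgoal
      · intro l hl
        obtain ⟨y, hy1, hy2⟩ := hc.2.1 l hl
        refine ⟨y, hy1, fun j hd => hy2 j ?_⟩
        rwa [hev] at hd
      · refine lt_of_le_of_lt ?_ hc.2.2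
        apply Nat.cast_le.2
        have hfin : (good n χ m ε c x).Finite := by
          apply (Finset.finite_toSet (Finset.range (x + 1))).subset
          rintro k ⟨h1, h2, -, -⟩
          rw [Finset.mem_coe, Finset.mem_range]
          unfold p at h2
          have e1 := Nat.add_two_le_nth_prime (k * n - 1)
          have e2 : k * 1 ≤ k * n := Nat.mul_le_mul_left k hn
          omega
        rw [← Set.ncard_coe_finset]
        apply Set.ncard_le_ncard_of_injOn (fun q => Nat.primeCounting q / n) _ _ hfin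
        · intro q hq
          rw [mem_coe] at hq
          unfold Arg at hq
          rw [mem_filter, mem_Icc] at hq
          obtain ⟨⟨hq1, hq2⟩, hqp, ⟨k, hk1, hk2, hk3⟩, hqa⟩ := hq
          have hdiv : Nat.primeCounting q / n = k := by
            rw [hk2]
            exact Nat.mul_div_cancel k (by omega)
          have hpq : p (k * n) = q := by
            rw [← hk2]
            have hpc : 1 ≤ Nat.primeCounting q := by
              rw [hk2]
              exact Nat.mul_pos hk1 hn
            unfold p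
            have e1 : Nat.primeCounting q - 1 = Nat.count Nat.Prime q := by
              unfold Nat.primeCounting Nat.primeCounting'
              rw [Nat.count_succ, if_pos hqp]
              omega
            rw [e1]
            exact Nat.nth_count hqp
          have hgoal : k ∈ good n χ m ε c x := by
            refine ⟨hk1, by rw [hpq]; exact hq2, hk3, fun j => ?_⟩
            rw [hpq]
            have h1 := hqa j
            rw [hev] at h1
            have h2 : ((q : ℤ) + 2 * c j).toNat = q + 2 * c j := by omega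
            rwa [h2] at h1
          simp only [hdiv]
          exact hgoal
        · intro q hq q' hq' hqq
          rw [mem_coe] at hq hq'
          unfold Arg at hq hq'
          rw [mem_filter] at hq hq'
          obtain ⟨-, hqp, ⟨k, hk1, hk2, -⟩, -⟩ := hq
          obtain ⟨-, hqp', ⟨k', hk1', hk2', -⟩, -⟩ := hq'
          simp only at hqq
          rw [hk2, hk2', Nat.mul_div_cancel k (by omega), Nat.mul_div_cancel k' (by omega)] at hqq
          have e0 : Nat.primeCounting q = Nat.primeCounting q' := by rw [hk2, hk2', hqq]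
          have e1 : Nat.count Nat.Prime q = Nat.count Nat.Prime q' := by
            unfold Nat.primeCounting Nat.primeCounting' at e0
            rw [Nat.count_succ, Nat.count_succ, if_pos hqp, if_pos hqp'] at e0
            omega
          rw [← Nat.nth_count hqp, ← Nat.nth_count hqp', e1]
    · intro a _ b _ hab
      funext j
      have := congrFun hab j
      simp only at this
      omega
  · congr 1
    rw [Finset.prod_congr rfl fun j _ => by rw [Polynomial.natDegree_X, pow_one]]
    rw [prod_const, card_univ, Fintype.card_fin]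

/-- **Prime shifts of primes with index a multiple of `n`.** For all `n ≥ 1`, all finite colourings
`χ` of the positive integers, all `m`, `r`, `L` and all `ε, κ > 0` there is `δ > 0` such that for all
large `x`, for all but at most `κ x ^ r` of the vectors `(c_1, ..., c_r)` of integers `1 ≤ c_j ≤ L x`
without local obstruction, there are at least `δ x / (log x) ^ (r + 1)` integers `k ≥ 1` with
`p_{kn} ≤ x` such that all `p_{kn} + 2 c_j` are prime and at least `m` other primes `p_{k'n}` within
`ε log p_{kn}` of `p_{kn}` have `k'` of the colour of `k`. (For `m = 0` and `r = 1`: for most `c`, the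
number `p_{kn} + 2 c` is prime for at least `δ x / (log x) ^ 2` of the `k` with `p_{kn} ≤ x`.) -/
theorem result (n : ℕ) (hn : 1 ≤ n) (s : ℕ) (χ : ℕ → Fin s) (m : ℕ) (ε : ℝ) (hε : 0 < ε)
    (r L : ℕ) (κ : ℝ) (hκ : 0 < κ) : ∃ δ : ℝ, 0 < δ ∧ ∀ᶠ x : ℕ in atTop,
      ((exceptions r n χ m ε δ L x).card : ℝ) ≤ κ * (x : ℝ) ^ r :=
  fixed n hn χ m ε hε r L κ hκ

end Pool.Agent.Results.MP_be93de_nt.MostShifts
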