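import Pool.Agent.Helper29.BE.Cor

/-!
# Primes `p_{kn} + h` and `p_{k²n} + h` with small `k`, for every large `n`

The problem asks, for every `n > 6`, for some `k ≤ n` such that `p_{kn} + 2` (or `p_{k²n} + 2`) is
prime, and for some `k < 3 √n + 6` such that `p_{kn} + 2` is prime. Here `2` is replaced by other even
shifts, uniformly in `n`: for EVERY large `n`, all `K ≤ n` and all `H` with `n ^ 102 ≤ H` and
`log H ≤ K`, at least `c H / log log n` of the even `h ≤ H` have some `k ≤ K` such that `p_{kn} + h` is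
prime, and the same is true for `p_{k²n} + h`, for `h - p_{kn}` and for `h - p_{k²n}`. So the ranges of
`k` in both questions, and even `k ≤ 102 log n` for `H = n ^ 102`, are sufficient for all these shifts. More
generally one `k ≤ K` serves `r` numbers `p_{kn} + h_j`, `p_{k²n} + h_j` at once (for instance
`p_{kn} + h_1` and `p_{k²n} + h_2`) for at least `c_r H ^ r / (log log n) ^ r` of the `r`-tuples of
shifts, if `(log H) ^ r ≤ K`.

The proof is the second moment method, with the sharp form of the upper bound sieve for prime pairs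
and the moments of the singular factor over differences of the starting library
(`Pool.Agent.H197R2.PG`), in a form for vectors of shifts and arbitrary sets of vectors
(`Pool.Agent.Helper29.BE.main`). No distribution property of the primes `p_{kn}` is used.
-/

set_option autoImplicit false

open Finset Filter Topology

namespace Pool.Agent.Results.MP_be93de_nt.UniformShifts

/-- The `m`-th prime: `p 1 = 2`, `p 2 = 3`, `p 3 = 5`, and so on. -/
noncomputable def p (m : ℕ) : ℕ := Nat.nth Nat.Prime (m - 1)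

/-- For `b = true`: the number `a + h` is prime. For `b = false`: the number `h - a` is positive and
prime. -/
def PrimeShift (b : Bool) (a h : ℕ) : Prop :=
  if b = true then (a + h).Prime else (a < h ∧ (h - a).Prime)

/-- The `r`-tuples of even numbers `1 ≤ h j ≤ H` such that for some `1 ≤ k ≤ K` all the numbers
`p_i + h j` (for `s j = true`) and `h j - p_i` (for `s j = false`) are prime, where the index `i` is
`k n` if `e j = 1` and `k² n` if `e j = 2`. -/
def shifts {r : ℕ} (e : Fin r → ℕ) (s : Fin r → Bool) (n K H : ℕ) : Set (Fin r → ℕ) :=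
  {h | (∀ j, 1 ≤ h j ∧ h j ≤ H ∧ Even (h j)) ∧ ∃ k : ℕ, 1 ≤ k ∧ k ≤ K ∧
    ∀ j, PrimeShift (s j) (p (k ^ e j * n)) (h j)}

open Pool.Agent.Helper29.BE in
/-- **Shifts of the primes `p_{kn}` and `p_{k²n}`, uniformly in `n`.** For every `r ≥ 1` there are
`c > 0` and `n₀` such that for all `n ≥ n₀`, all `K ≤ n`, all `H` with `n ^ 102 ≤ H` and
`(log H) ^ r ≤ K`, all `e_1, ..., e_r ∈ {1, 2}` and all signs `s`: for at least
`c H ^ r / (log log n) ^ r` of the `r`-tuples of even numbers `h_j ≤ H` there is some `1 ≤ k ≤ K` such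
that all the numbers `p_i + h_j` (or `h_j - p_i`), `i = k ^ (e_j) n`, are prime. -/
theorem result (r : ℕ) (hr : 1 ≤ r) : ∃ c : ℝ, 0 < c ∧ ∃ n₀ : ℕ, ∀ n : ℕ, n₀ ≤ n → ∀ K : ℕ,
    K ≤ n → ∀ H : ℕ, n ^ 102 ≤ H → Real.log H ^ r ≤ K →
    ∀ e : Fin r → ℕ, (∀ j, e j = 1 ∨ e j = 2) → ∀ s : Fin r → Bool,
    c * H ^ r / Real.log (Real.log n) ^ r ≤ ((shifts e s n K H).ncard : ℝ) := by
  classical
  obtain ⟨c, hc, n₀, h⟩ := shiftsN r 6 hr (by norm_num)
  have t3 : Tendsto (fun N : ℕ => N ^ 3) atTop atTop := tendsto_pow_atTop (by norm_num)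
  obtain ⟨n₁, hn₁⟩ := eventually_atTop.1 ((t3.eventually P_le_sq).and
    (eventually_ge_atTop (n₀ + 2)))
  refine ⟨c, hc, n₁, fun n hn K hK H hH hHn e he s => ?_⟩
  obtain ⟨g2, g3⟩ := hn₁ n hn
  have hn1 : 1 ≤ n := by omega
  set T : Finset ℕ := Icc 1 K with hT
  have hTm : ∀ k ∈ T, 1 ≤ k ∧ k ≤ K := fun k hk => mem_Icc.1 hk
  have hTc : #T = K := by
    rw [hT, Nat.card_Icc]
    omega
  have h1 := h n (by omega) H (by norm_num; exact hH) T (fun j k => P (k ^ e j * n)) s (by
    intro i k hk k' hk' hkk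
    obtain ⟨hk1, hk2⟩ := hTm k (mem_coe.1 hk)
    obtain ⟨hk1', hk2'⟩ := hTm k' (mem_coe.1 hk')
    have e2 := P_inj (Nat.mul_pos (pow_pos hk1 _) hn1) (Nat.mul_pos (pow_pos hk1' _) hn1) hkk
    have e3 : k ^ e i = k' ^ e i := Nat.eq_of_mul_eq_mul_right (by omega) e2
    exact Nat.pow_left_injective (by rcases he i with h | h <;> rw [h] <;> norm_num) e3) (by
    intro i k hk
    obtain ⟨hk1, hk2⟩ := hTm k hk
    have e0 : 1 ≤ k ^ e i := Nat.one_le_pow _ _ hk1
    have e1 : 2 ≤ k ^ e i * n := by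
      have : 1 * n ≤ k ^ e i * n := Nat.mul_le_mul_right _ e0
      omega
    have e2 : k ^ e i * n ≤ n ^ 3 := by
      calc k ^ e i * n ≤ n ^ e i * n :=
            Nat.mul_le_mul_right _ (Nat.pow_le_pow_left (by omega) _)
        _ ≤ n ^ 2 * n := by
            apply Nat.mul_le_mul_right
            exact Nat.pow_le_pow_right hn1 (by rcases he i with h | h <;> rw [h] <;> norm_num)
        _ = n ^ 3 := by ring
    refine ⟨Nat.odd_iff.2 (P_odd e1).2, ?_⟩
    calc P (k ^ e i * n) ≤ (n ^ 3) ^ 2 := (P_mono e2).trans g2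
      _ = n ^ 6 := by ring) (by rw [hTc]; exact hHn)
  refine h1.trans ?_
  apply Nat.cast_le.2
  apply card_le
  intro h k hk hp
  exact ⟨k, (hTm k hk).1, (hTm k hk).2, hp⟩

end Pool.Agent.Results.MP_be93de_nt.UniformShifts
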